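import Mathlib

/-!
# The saddle point of the general theorem, by contraction

Runs are indexed by `Fin (d+1)`, hinges by `Fin d`; the hinge `h` lies between the runs
`h.castSucc` and `h.succ`.  `ζ i` is the variable of the run `i`, `w i = a_i ζ_i - 1`.
The equations are
`a_i ζ_i - 1 = -(i ε_i / π) ∑_{h at i} artanh (tan (π ζ_i) q_h)`,
`q_h = (1 + tan² (π ζ_h) + tan² (π ζ_{h+1}))^{-1/2}`.
-/

namespace Pool.Agent.Work.MP_b30479_gt.GT

open Finset

/-- `tan (π ζ)` -/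
noncomputable def tz (ζ : ℂ) : ℂ := Complex.tan (Real.pi * ζ)

/-- `artanh u` -/
noncomputable def ath (u : ℂ) : ℂ := (Complex.log (1 + u) - Complex.log (1 - u)) / 2

/-- `1 / √K` -/
noncomputable def isq (K : ℂ) : ℂ := Complex.exp (-(Complex.log K) / 2)

/-- `tan (π y_h)` -/
noncomputable def qh {d : ℕ} (ζ : Fin (d + 1) → ℂ) (h : Fin d) : ℂ :=
  isq (1 + tz (ζ h.castSucc) ^ 2 + tz (ζ h.succ) ^ 2)

/-- `∑_{h at i} artanh (tan (π ζ_i) q_h)` -/
noncomputable def Sm {d : ℕ} (ζ : Fin (d + 1) → ℂ) (i : Fin (d + 1)) : ℂ :=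
  ∑ h : Fin d, ((if h.castSucc = i then ath (tz (ζ i) * qh ζ h) else 0) +
    (if h.succ = i then ath (tz (ζ i) * qh ζ h) else 0))

/-- the saddle point equations -/
def SadEq {d : ℕ} (a : Fin (d + 1) → ℕ) (ε : Fin (d + 1) → ℝ) (ζ : Fin (d + 1) → ℂ) : Prop :=
  ∀ i, (a i : ℂ) * ζ i - 1 = -(Complex.I * ε i / Real.pi) * Sm ζ i

/-! ### elementary estimates -/

theorem sinh_sq_le {y : ℝ} (hy : |y| < 1) : Real.sinh y ^ 2 ≤ y ^ 2 / (1 - y ^ 2) := by
  have h1 : y ^ 2 < 1 := by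
    rw [← sq_abs]
    have := abs_nonneg y
    nlinarith
  have h2 : Real.cosh y ^ 2 ≤ 1 / (1 - y ^ 2) := by
    have h3 := Real.cosh_le_exp_half_sq y
    have h4 : Real.exp (y ^ 2 / 2) ^ 2 = Real.exp (y ^ 2) := by
      rw [← Real.exp_nat_mul]
      congr 1
      push_cast
      ring
    have h5 := Real.exp_bound_div_one_sub_of_interval (sq_nonneg y) h1
    have h6 : Real.cosh y ^ 2 ≤ Real.exp (y ^ 2 / 2) ^ 2 :=
      pow_le_pow_left₀ (Real.cosh_pos y).le h3 2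
    linarith
  have h7 := Real.cosh_sq y
  have h8 : 1 / (1 - y ^ 2) - 1 = y ^ 2 / (1 - y ^ 2) := by
    have : (1 - y ^ 2) ≠ 0 := by linarith
    field_simp
    ring
  linarith

theorem normSq_cos (z : ℂ) :
    Complex.normSq (Complex.cos z) = Real.cos z.re ^ 2 + Real.sinh z.im ^ 2 := by
  have h1 : Complex.cos z = (Real.cos z.re * Real.cosh z.im : ℝ) +
      (-(Real.sin z.re * Real.sinh z.im) : ℝ) * Complex.I := by
    conv_lhs => rw [← Complex.re_add_im z]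
    rw [Complex.cos_add_mul_I]
    push_cast
    ring
  rw [h1, Complex.normSq_add_mul_I]
  have h2 := Real.cosh_sq z.im
  have h3 := Real.sin_sq_add_cos_sq z.re
  have h4 : Real.sin z.re ^ 2 = 1 - Real.cos z.re ^ 2 := by linarith
  calc (Real.cos z.re * Real.cosh z.im) ^ 2 + (-(Real.sin z.re * Real.sinh z.im)) ^ 2
      = Real.cos z.re ^ 2 * Real.cosh z.im ^ 2 + Real.sin z.re ^ 2 * Real.sinh z.im ^ 2 := by ring
    _ = _ := by rw [h2, h4]; ring

theorem normSq_sin (z : ℂ) :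
    Complex.normSq (Complex.sin z) = Real.sin z.re ^ 2 + Real.sinh z.im ^ 2 := by
  have h1 : Complex.sin z = (Real.sin z.re * Real.cosh z.im : ℝ) +
      (Real.cos z.re * Real.sinh z.im : ℝ) * Complex.I := by
    conv_lhs => rw [← Complex.re_add_im z]
    rw [Complex.sin_add_mul_I]
    push_cast
    ring
  rw [h1, Complex.normSq_add_mul_I]
  have h2 := Real.cosh_sq z.im
  have h3 := Real.sin_sq_add_cos_sq z.re
  have h4 : Real.cos z.re ^ 2 = 1 - Real.sin z.re ^ 2 := by linarith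
  calc (Real.sin z.re * Real.cosh z.im) ^ 2 + (Real.cos z.re * Real.sinh z.im) ^ 2
      = Real.sin z.re ^ 2 * Real.cosh z.im ^ 2 + Real.cos z.re ^ 2 * Real.sinh z.im ^ 2 := by ring
    _ = _ := by rw [h2, h4]; ring

/-- real part of `(sin z conj (cos z))²` -/
theorem sin_mul_conj_cos_sq_re (z : ℂ) :
    ((Complex.sin z * (starRingEnd ℂ) (Complex.cos z)) ^ 2).re =
      (Real.sin z.re * Real.cos z.re) ^ 2 - (Real.sinh z.im * Real.cosh z.im) ^ 2 := by
  have h1 : Complex.sin z = (Real.sin z.re * Real.cosh z.im : ℝ) +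
      (Real.cos z.re * Real.sinh z.im : ℝ) * Complex.I := by
    conv_lhs => rw [← Complex.re_add_im z]
    rw [Complex.sin_add_mul_I]
    push_cast
    ring
  have h2 : Complex.cos z = (Real.cos z.re * Real.cosh z.im : ℝ) +
      (-(Real.sin z.re * Real.sinh z.im) : ℝ) * Complex.I := by
    conv_lhs => rw [← Complex.re_add_im z]
    rw [Complex.cos_add_mul_I]
    push_cast
    ring
  have h3 : Complex.sin z * (starRingEnd ℂ) (Complex.cos z) =
      (Real.sin z.re * Real.cos z.re : ℝ) + (Real.sinh z.im * Real.cosh z.im : ℝ) * Complex.I := by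
    rw [h1, h2]
    have e1 := Real.cosh_sq z.im
    have e2 := Real.sin_sq_add_cos_sq z.re
    generalize Real.sin z.re = s at e2
    generalize Real.cos z.re = c at e2
    generalize Real.sinh z.im = S at e1
    generalize Real.cosh z.im = C at e1
    have e1' : (C : ℂ) ^ 2 = S ^ 2 + 1 := by exact_mod_cast e1
    have e2' : (s : ℂ) ^ 2 + c ^ 2 = 1 := by exact_mod_cast e2
    have e3 : Complex.I ^ 2 = -1 := Complex.I_sq
    simp only [Complex.ofReal_mul, Complex.ofReal_neg, map_add, map_mul, map_neg,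
      Complex.conj_ofReal, Complex.conj_I]
    linear_combination (s : ℂ) * c * e1' + (S : ℂ) * C * Complex.I * e2' + (c : ℂ) * s * S ^ 2 * e3
  rw [h3, sq, Complex.mul_re]
  simp only [Complex.add_re, Complex.ofReal_re, Complex.mul_re, Complex.I_re, mul_zero,
    Complex.ofReal_im, Complex.I_im, mul_one, sub_self, add_zero, Complex.add_im, Complex.mul_im,
    zero_add]
  ring

/-- the domain: `z = p (1 + w)` with `‖w‖ ≤ 2/5`, `0 < p ≤ π/10` -/
theorem dom_facts {p : ℝ} (hp0 : 0 < p) (hp : p ≤ 0.31416) {w : ℂ} (hw : ‖w‖ ≤ 2 / 5) :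
    let z : ℂ := p * (1 + w)
    3 / 5 * p ≤ z.re ∧ z.re ≤ 7 / 5 * p ∧ |z.im| ≤ 2 / 5 * p ∧ z.re ^ 2 + z.im ^ 2 ≤ 0.19345 := by
  intro z
  have h1 : z.re = p * (1 + w.re) := by
    simp only [z, Complex.mul_re, Complex.ofReal_re, Complex.add_re, Complex.one_re,
      Complex.ofReal_im, Complex.add_im, Complex.one_im, zero_mul, sub_zero]
  have h2 : z.im = p * w.im := by
    simp only [z, Complex.mul_im, Complex.ofReal_re, Complex.add_re, Complex.one_re,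
      Complex.ofReal_im, Complex.add_im, Complex.one_im, zero_mul, add_zero, zero_add]
  have h3 := abs_le.1 ((Complex.abs_re_le_norm w).trans hw)
  have h4 := abs_le.1 ((Complex.abs_im_le_norm w).trans hw)
  have h5 : w.re ^ 2 + w.im ^ 2 ≤ 4 / 25 := by
    have := Complex.normSq_apply w
    have h6 := Complex.sq_norm w
    have h7 : ‖w‖ ^ 2 ≤ (2 / 5) ^ 2 := pow_le_pow_left₀ (norm_nonneg _) hw 2
    nlinarith
  refine ⟨?_, ?_, ?_, ?_⟩
  · rw [h1]; nlinarith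
  · rw [h1]; nlinarith
  · rw [h2, abs_le]; constructor <;> nlinarith
  · rw [h1, h2]
    have h8 : (1 + w.re) ^ 2 + w.im ^ 2 ≤ 49 / 25 := by nlinarith
    have h9 : p ^ 2 ≤ 0.31416 ^ 2 := pow_le_pow_left₀ hp0.le hp 2
    have h10 : (p * (1 + w.re)) ^ 2 + (p * w.im) ^ 2 = p ^ 2 * ((1 + w.re) ^ 2 + w.im ^ 2) := by ring
    rw [h10]
    have h11 : 0 ≤ (1 + w.re) ^ 2 + w.im ^ 2 := by positivity
    calc p ^ 2 * ((1 + w.re) ^ 2 + w.im ^ 2) ≤ 0.31416 ^ 2 * (49 / 25) := by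
          apply mul_le_mul h9 h8 h11 (by norm_num)
      _ ≤ 0.19345 := by norm_num

theorem cos_sq_ge {x : ℝ} : 1 - x ^ 2 ≤ Real.cos x ^ 2 := by
  have h1 := Real.sin_sq_add_cos_sq x
  have h2 : Real.sin x ^ 2 ≤ x ^ 2 := by
    rw [← sq_abs, ← sq_abs x]
    exact pow_le_pow_left₀ (abs_nonneg _) Real.abs_sin_le_abs 2
  linarith

theorem tan_facts {p : ℝ} (hp0 : 0 < p) (hp : p ≤ 0.31416) {z : ℂ}
    (h1 : 3 / 5 * p ≤ z.re) (h3 : |z.im| ≤ 2 / 5 * p)
    (h4 : z.re ^ 2 + z.im ^ 2 ≤ 0.19345) :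
    Complex.cos z ≠ 0 ∧ ‖Complex.tan z‖ ≤ 1 / 2 ∧ 0 ≤ ((Complex.tan z) ^ 2).re ∧
      ‖1 / Complex.cos z ^ 2‖ ≤ 1.2402 := by
  have hy1 : |z.im| < 1 := by nlinarith
  have hy2 : z.im ^ 2 ≤ (2 / 5 * p) ^ 2 := by
    rw [← sq_abs]; exact pow_le_pow_left₀ (abs_nonneg _) h3 2
  have hy3 : z.im ^ 2 ≤ 0.0158 := by
    have : (2 / 5 * p) ^ 2 ≤ (2 / 5 * 0.31416) ^ 2 :=
      pow_le_pow_left₀ (by positivity) (by nlinarith) 2
    norm_num at this ⊢
    linarith
  have hS : Real.sinh z.im ^ 2 ≤ 1.0161 * z.im ^ 2 := by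
    refine (sinh_sq_le hy1).trans ?_
    rw [div_le_iff₀ (by norm_num at hy3 ⊢; linarith)]
    have := sq_nonneg z.im
    nlinarith
  have hS0 := sq_nonneg (Real.sinh z.im)
  have hs : Real.sin z.re ^ 2 ≤ z.re ^ 2 := by
    rw [← sq_abs, ← sq_abs z.re]
    exact pow_le_pow_left₀ (abs_nonneg _) Real.abs_sin_le_abs 2
  have hc := cos_sq_ge (x := z.re)
  have hx0 : 0 < z.re := by nlinarith
  have hcpos : 0.80655 ≤ Complex.normSq (Complex.cos z) := by
    rw [normSq_cos]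
    have := sq_nonneg z.im
    norm_num at h4 ⊢
    linarith
  have hne : Complex.cos z ≠ 0 := by
    intro h
    rw [h, Complex.normSq_zero] at hcpos
    norm_num at hcpos
  refine ⟨hne, ?_, ?_, ?_⟩
  · have hn : ‖Complex.tan z‖ ^ 2 ≤ (1 / 2) ^ 2 := by
      rw [Complex.tan_eq_sin_div_cos, norm_div, div_pow, Complex.sq_norm, Complex.sq_norm,
        normSq_sin, div_le_iff₀ (by linarith), normSq_cos]
      have e1 := Real.sin_sq_add_cos_sq z.re
      norm_num at h4 hS ⊢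
      nlinarith
    exact (sq_le_sq₀ (norm_nonneg _) (by norm_num)).1 hn
  · have e1 : Complex.tan z ^ 2 = (Complex.sin z * (starRingEnd ℂ) (Complex.cos z)) ^ 2 *
        ((1 / Complex.normSq (Complex.cos z) ^ 2 : ℝ) : ℂ) := by
      rw [Complex.tan_eq_sin_div_cos]
      have h5 : (Complex.normSq (Complex.cos z) : ℂ) =
          Complex.cos z * (starRingEnd ℂ) (Complex.cos z) := (Complex.mul_conj _).symm
      have h6 : (starRingEnd ℂ) (Complex.cos z) ≠ 0 := by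
        rw [Ne, map_eq_zero]; exact hne
      push_cast
      rw [h5]
      field_simp
    rw [e1, Complex.mul_re, Complex.ofReal_im, mul_zero, sub_zero, Complex.ofReal_re,
      sin_mul_conj_cos_sq_re]
    apply mul_nonneg _ (by positivity)
    have e2 := Real.sin_sq_add_cos_sq z.re
    have e3 := Real.cosh_sq z.im
    have e4 : z.re - z.re ^ 3 / 6 < Real.sin z.re := Real.sin_gt_sub_cube hx0
    have hx2 : z.re ^ 2 ≤ 0.19345 := by nlinarith [sq_nonneg z.im]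
    have e5 : 0.9516 * z.re ≤ Real.sin z.re := by
      have : z.re - z.re ^ 3 / 6 = z.re * (1 - z.re ^ 2 / 6) := by ring
      rw [this] at e4
      have : 0.9516 * z.re ≤ z.re * (1 - z.re ^ 2 / 6) := by
        rw [mul_comm]
        apply mul_le_mul_of_nonneg_left _ hx0.le
        norm_num at hx2 ⊢
        linarith
      linarith
    have e6 : 0.9055 * z.re ^ 2 ≤ Real.sin z.re ^ 2 := by
      have := pow_le_pow_left₀ (by positivity) e5 2
      have e : (0.9516 * z.re) ^ 2 = 0.9516 ^ 2 * z.re ^ 2 := by ring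
      rw [e] at this
      have h := sq_nonneg z.re
      norm_num at this ⊢
      nlinarith
    have e7 : 0.8065 ≤ Real.cos z.re ^ 2 := by
      norm_num at hx2 ⊢
      linarith
    have e8 : 0.7302 * z.re ^ 2 ≤ (Real.sin z.re * Real.cos z.re) ^ 2 := by
      rw [mul_pow]
      have := mul_le_mul e6 e7 (by norm_num) (sq_nonneg _)
      have h := sq_nonneg z.re
      norm_num at this ⊢
      nlinarith
    have e9 : (Real.sinh z.im * Real.cosh z.im) ^ 2 ≤ 1.0325 * z.im ^ 2 := by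
      rw [mul_pow, e3]
      have h := sq_nonneg z.im
      have h' : Real.sinh z.im ^ 2 + 1 ≤ 1.01606 := by norm_num at hS hy3 ⊢; linarith
      have := mul_le_mul hS h' (by positivity) (by positivity)
      norm_num at this ⊢
      nlinarith
    have e10 : (3 / 5 * p) ^ 2 ≤ z.re ^ 2 := pow_le_pow_left₀ (by positivity) h1 2
    norm_num at e8 e9 hy2 e10 ⊢
    nlinarith
  · rw [norm_div, norm_one, norm_pow, Complex.sq_norm, div_le_iff₀ (by linarith)]
    norm_num at hcpos ⊢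
    linarith

/-! ### Lipschitz estimates -/

theorem ath_hasDerivAt {u : ℂ} (hu : ‖u‖ < 1) : HasDerivAt ath (1 / (1 - u ^ 2)) u := by
  have h1 : (1 + u) ∈ Complex.slitPlane := by
    left
    have := (abs_le.1 (Complex.abs_re_le_norm u)).1
    simp only [Complex.add_re, Complex.one_re]
    linarith
  have h2 : (1 - u) ∈ Complex.slitPlane := by
    left
    have := (abs_le.1 (Complex.abs_re_le_norm u)).2
    simp only [Complex.sub_re, Complex.one_re]
    linarith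
  have n1 : (1 + u) ≠ 0 := Complex.slitPlane_ne_zero h1
  have n2 : (1 - u) ≠ 0 := Complex.slitPlane_ne_zero h2
  have n3 : (1 - u ^ 2) ≠ 0 := by
    have : (1 - u ^ 2) = (1 + u) * (1 - u) := by ring
    rw [this]; exact mul_ne_zero n1 n2
  have d1 := ((hasDerivAt_id u).const_add 1).clog h1
  have d2 := ((hasDerivAt_id u).const_sub 1).clog h2
  have d3 := (d1.sub d2).div_const 2
  have : (1 / (1 - u ^ 2)) = (1 / (1 + id u) - -1 / (1 - id u)) / 2 := by
    simp only [id_eq]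
    field_simp
    ring
  rw [this]
  exact d3

theorem ath_lip {r : ℝ} (hr : r < 1) {u v : ℂ} (hu : ‖u‖ ≤ r) (hv : ‖v‖ ≤ r) :
    ‖ath u - ath v‖ ≤ 1 / (1 - r ^ 2) * ‖u - v‖ := by
  have hr0 : 0 ≤ r := (norm_nonneg _).trans hu
  have hr2 : r ^ 2 < 1 := by nlinarith
  have key := Convex.norm_image_sub_le_of_norm_hasDerivWithin_le (f := ath)
    (f' := fun u => 1 / (1 - u ^ 2)) (s := Metric.closedBall (0 : ℂ) r) (C := 1 / (1 - r ^ 2))
    (x := v) (y := u) ?_ ?_ (convex_closedBall 0 r) ?_ ?_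
  · exact key
  · intro x hx
    rw [mem_closedBall_zero_iff] at hx
    exact (ath_hasDerivAt (lt_of_le_of_lt hx hr)).hasDerivWithinAt
  · intro x hx
    rw [mem_closedBall_zero_iff] at hx
    rw [norm_div, norm_one]
    apply one_div_le_one_div_of_le (by linarith)
    have h1 : ‖x ^ 2‖ ≤ r ^ 2 := by
      rw [norm_pow]; exact pow_le_pow_left₀ (norm_nonneg _) hx 2
    have h2 := norm_sub_norm_le (1 : ℂ) (x ^ 2)
    rw [norm_one] at h2
    linarith
  · rw [mem_closedBall_zero_iff]; exact hv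
  · rw [mem_closedBall_zero_iff]; exact hu

theorem ath_zero : ath 0 = 0 := by
  simp [ath]

theorem ath_norm_le {u : ℂ} (hu : ‖u‖ ≤ 1 / 2) : ‖ath u‖ ≤ 6 / 5 * ‖u‖ := by
  have h1 : ‖u / 2‖ = ‖u‖ / 2 := by
    rw [norm_div]; norm_num
  have h2 : ‖ath (u / 2) - ath 0‖ ≤ 1 / (1 - (1 / 4) ^ 2) * ‖u / 2 - 0‖ :=
    ath_lip (by norm_num) (by rw [h1]; linarith) (by rw [norm_zero]; norm_num)
  have h3 : ‖ath u - ath (u / 2)‖ ≤ 1 / (1 - (1 / 2) ^ 2) * ‖u - u / 2‖ :=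
    ath_lip (by norm_num) hu (by rw [h1]; linarith [norm_nonneg u])
  have h4 : ‖u - u / 2‖ = ‖u‖ / 2 := by
    rw [← h1]; congr 1; ring
  rw [ath_zero, sub_zero, sub_zero, h1] at h2
  rw [h4] at h3
  have h5 : ‖ath u‖ ≤ ‖ath u - ath (u / 2)‖ + ‖ath (u / 2)‖ := by
    have := norm_add_le (ath u - ath (u / 2)) (ath (u / 2))
    rwa [sub_add_cancel] at this
  norm_num at h2 h3
  linarith

theorem isq_norm (K : ℂ) : ‖isq K‖ = Real.exp (-(Real.log ‖K‖) / 2) := by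
  unfold isq
  rw [Complex.norm_exp]
  congr 1
  simp [Complex.log_re]

theorem isq_norm_le {K : ℂ} (hK : 1 ≤ K.re) : ‖isq K‖ ≤ 1 := by
  have h1 : 1 ≤ ‖K‖ := hK.trans ((le_abs_self _).trans (Complex.abs_re_le_norm K))
  rw [isq_norm, Real.exp_le_one_iff]
  have := Real.log_nonneg h1
  linarith

theorem isq_sq {K : ℂ} (hK : K ≠ 0) : isq K ^ 2 = 1 / K := by
  unfold isq
  rw [← Complex.exp_nat_mul]
  have : ((2 : ℕ) : ℂ) * (-Complex.log K / 2) = -Complex.log K := by push_cast; ring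
  rw [this, Complex.exp_neg, Complex.exp_log hK, one_div]

theorem isq_lip {K L : ℂ} (hK : 1 ≤ K.re) (hL : 1 ≤ L.re) :
    ‖isq K - isq L‖ ≤ 1 / 2 * ‖K - L‖ := by
  have key := Convex.norm_image_sub_le_of_norm_hasDerivWithin_le (f := isq)
    (f' := fun K => isq K * (-(1 / K) / 2)) (s := {z : ℂ | 1 ≤ z.re}) (C := 1 / 2)
    (x := L) (y := K) ?_ ?_ (convex_halfSpace_re_ge 1) hL hK
  · exact key
  · intro x hx
    have hx' : 1 ≤ x.re := hx
    have hs : x ∈ Complex.slitPlane := Or.inl (by linarith)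
    have d1 := (((hasDerivAt_id x).clog hs).neg.div_const 2).cexp
    have : isq x * (-(1 / x) / 2) = Complex.exp (-Complex.log (id x) / 2) * (-(1 / id x) / 2) := rfl
    rw [this]
    exact d1.hasDerivWithinAt
  · intro x hx
    have hx' : 1 ≤ x.re := hx
    have h1 : 1 ≤ ‖x‖ := hx'.trans ((le_abs_self _).trans (Complex.abs_re_le_norm x))
    have h2 : ‖-(1 / x) / 2‖ ≤ 1 / 2 := by
      rw [norm_div, norm_neg, norm_div, norm_one]
      have : 1 / ‖x‖ ≤ 1 := by rw [div_le_one (by linarith)]; exact h1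
      norm_num at this ⊢
      linarith
    calc ‖isq x * (-(1 / x) / 2)‖ = ‖isq x‖ * ‖-(1 / x) / 2‖ := norm_mul _ _
      _ ≤ 1 * (1 / 2) := mul_le_mul (isq_norm_le hx') h2 (norm_nonneg _) (by norm_num)
      _ = 1 / 2 := by norm_num

theorem pi_div_le {a : ℕ} (ha : 10 ≤ a) : Real.pi / a ≤ 0.31416 ∧ 0 < Real.pi / a := by
  have h1 : (10 : ℝ) ≤ a := by exact_mod_cast ha
  have h2 := Real.pi_lt_d4
  have h3 := Real.pi_pos
  refine ⟨?_, by positivity⟩
  rw [div_le_iff₀ (by linarith)]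
  norm_num at h2 ⊢
  nlinarith

theorem tz_eq (a : ℕ) (w : ℂ) : tz ((1 + w) / a) = Complex.tan ((Real.pi / a : ℝ) * (1 + w)) := by
  unfold tz
  congr 1
  push_cast
  ring

theorem tz_dom {a : ℕ} (ha : 10 ≤ a) {w : ℂ} (hw : ‖w‖ ≤ 2 / 5) :
    Complex.cos (Real.pi * ((1 + w) / a)) ≠ 0 ∧
    ‖tz ((1 + w) / a)‖ ≤ 1 / 2 ∧ 0 ≤ (tz ((1 + w) / a) ^ 2).re := by
  obtain ⟨h1, h2⟩ := pi_div_le ha
  obtain ⟨b1, b2, b3, b4⟩ := dom_facts h2 h1 hw
  obtain ⟨c1, c2, c3, -⟩ := tan_facts h2 h1 b1 b3 b4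
  rw [tz_eq]
  refine ⟨?_, c2, c3⟩
  have : (Real.pi : ℂ) * ((1 + w) / a) = (Real.pi / a : ℝ) * (1 + w) := by push_cast; ring
  rw [this]
  exact c1

theorem tz_lip {a : ℕ} (ha : 10 ≤ a) {w w' : ℂ} (hw : ‖w‖ ≤ 2 / 5) (hw' : ‖w'‖ ≤ 2 / 5) :
    ‖tz ((1 + w) / a) - tz ((1 + w') / a)‖ ≤ 1.2402 * (Real.pi / a) * ‖w - w'‖ := by
  obtain ⟨h1, h2⟩ := pi_div_le ha
  set p : ℝ := Real.pi / a with hp
  have key := Convex.norm_image_sub_le_of_norm_hasDerivWithin_le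
    (f := fun w : ℂ => Complex.tan ((p : ℂ) * (1 + w)))
    (f' := fun w => 1 / Complex.cos ((p : ℂ) * (1 + w)) ^ 2 * p)
    (s := Metric.closedBall (0 : ℂ) (2 / 5)) (C := 1.2402 * p)
    (x := w') (y := w) ?_ ?_ (convex_closedBall 0 _) ?_ ?_
  · rw [tz_eq, tz_eq]
    exact key
  · intro x hx
    rw [mem_closedBall_zero_iff] at hx
    obtain ⟨b1, b2, b3, b4⟩ := dom_facts h2 h1 hx
    obtain ⟨c1, -, -, -⟩ := tan_facts h2 h1 b1 b3 b4
    have d1 : HasDerivAt (fun w : ℂ => (p : ℂ) * (1 + w)) p x := by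
      have := ((hasDerivAt_id x).const_add 1).const_mul (p : ℂ)
      simpa using this
    exact ((Complex.hasDerivAt_tan c1).comp x d1).hasDerivWithinAt
  · intro x hx
    rw [mem_closedBall_zero_iff] at hx
    obtain ⟨b1, b2, b3, b4⟩ := dom_facts h2 h1 hx
    obtain ⟨-, -, -, c4⟩ := tan_facts h2 h1 b1 b3 b4
    rw [norm_mul, Complex.norm_real, Real.norm_of_nonneg h2.le]
    exact mul_le_mul_of_nonneg_right c4 h2.le
  · rw [mem_closedBall_zero_iff]; exact hw'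
  · rw [mem_closedBall_zero_iff]; exact hw

/-- sum over the at most two hinges of a run -/
theorem two_sum {d : ℕ} (i : Fin (d + 1)) (f : Fin d → ℂ) {M : ℝ} (hM : 0 ≤ M)
    (hf : ∀ h, ‖f h‖ ≤ M) :
    ‖∑ h : Fin d, ((if h.castSucc = i then f h else 0) + (if h.succ = i then f h else 0))‖ ≤
      2 * M := by
  have aux : ∀ P : Fin d → Prop, ∀ _ : DecidablePred P, (∀ h h', P h → P h' → h = h') →
      ‖∑ h : Fin d, (if P h then f h else 0)‖ ≤ M := by
    intro P _ hP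
    by_cases hex : ∃ h, P h
    · obtain ⟨h0, hh0⟩ := hex
      rw [Finset.sum_eq_single h0]
      · rw [if_pos hh0]; exact hf h0
      · intro b _ hb
        rw [if_neg]
        intro hPb
        exact hb (hP b h0 hPb hh0)
      · intro hn
        exact absurd (Finset.mem_univ _) hn
    · rw [Finset.sum_eq_zero]
      · rw [norm_zero]; exact hM
      · intro h _
        rw [if_neg]
        intro hh
        exact hex ⟨h, hh⟩
  rw [Finset.sum_add_distrib]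
  have h1 := aux (fun h => h.castSucc = i) inferInstance (fun h h' e e' =>
    Fin.castSucc_injective d (e.trans e'.symm))
  have h2 := aux (fun h => h.succ = i) inferInstance (fun h h' e e' =>
    Fin.succ_injective d (e.trans e'.symm))
  have := norm_add_le (∑ h : Fin d, (if h.castSucc = i then f h else 0))
    (∑ h : Fin d, (if h.succ = i then f h else 0))
  linarith

/-- `ζ` in terms of `w` -/
noncomputable def zw {d : ℕ} (a : Fin (d + 1) → ℕ) (w : Fin (d + 1) → ℂ) (i : Fin (d + 1)) : ℂ :=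
  (1 + w i) / a i

/-- the map -/
noncomputable def GG {d : ℕ} (a : Fin (d + 1) → ℕ) (ε : Fin (d + 1) → ℝ)
    (w : Fin (d + 1) → ℂ) (i : Fin (d + 1)) : ℂ :=
  -(Complex.I * ε i / Real.pi) * Sm (zw a w) i

section
variable {d : ℕ} {a : Fin (d + 1) → ℕ} {ε : Fin (d + 1) → ℝ}

theorem K_re (ha : ∀ i, 10 ≤ a i) {w : Fin (d + 1) → ℂ} (hw : ∀ i, ‖w i‖ ≤ 2 / 5)
    (i j : Fin (d + 1)) : 1 ≤ (1 + tz (zw a w i) ^ 2 + tz (zw a w j) ^ 2).re := by
  have h1 := (tz_dom (ha i) (hw i)).2.2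
  have h2 := (tz_dom (ha j) (hw j)).2.2
  rw [Complex.add_re, Complex.add_re, Complex.one_re]
  unfold zw
  linarith

theorem qh_norm (ha : ∀ i, 10 ≤ a i) {w : Fin (d + 1) → ℂ} (hw : ∀ i, ‖w i‖ ≤ 2 / 5)
    (h : Fin d) : ‖qh (zw a w) h‖ ≤ 1 :=
  isq_norm_le (K_re ha hw _ _)

theorem u_norm (ha : ∀ i, 10 ≤ a i) {w : Fin (d + 1) → ℂ} (hw : ∀ i, ‖w i‖ ≤ 2 / 5)
    (i : Fin (d + 1)) (h : Fin d) :
    ‖tz (zw a w i) * qh (zw a w) h‖ ≤ 1 / 2 := by
  rw [norm_mul]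
  have h1 := (tz_dom (ha i) (hw i)).2.1
  have h2 := qh_norm ha hw h
  calc ‖tz (zw a w i)‖ * ‖qh (zw a w) h‖ ≤ 1 / 2 * 1 :=
        mul_le_mul h1 h2 (norm_nonneg _) (by norm_num)
    _ = 1 / 2 := by norm_num

theorem coef_norm (hε : ∀ i, |ε i| ≤ 1) (i : Fin (d + 1)) :
    ‖-(Complex.I * ε i / Real.pi)‖ ≤ 1 / Real.pi := by
  rw [norm_neg, norm_div, norm_mul, Complex.norm_I, one_mul, Complex.norm_real, Complex.norm_real,
    Real.norm_eq_abs, Real.norm_of_nonneg Real.pi_pos.le]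
  exact div_le_div_of_nonneg_right (hε i) Real.pi_pos.le

theorem Sm_norm (ha : ∀ i, 10 ≤ a i) {w : Fin (d + 1) → ℂ} (hw : ∀ i, ‖w i‖ ≤ 2 / 5)
    (i : Fin (d + 1)) : ‖Sm (zw a w) i‖ ≤ 12 / 5 * ‖tz (zw a w i)‖ := by
  have hM : ∀ h : Fin d, ‖ath (tz (zw a w i) * qh (zw a w) h)‖ ≤ 6 / 5 * ‖tz (zw a w i)‖ := by
    intro h
    refine (ath_norm_le (u_norm ha hw i h)).trans ?_
    rw [norm_mul]
    have h2 := qh_norm ha hw h
    have h3 := norm_nonneg (tz (zw a w i))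
    nlinarith
  have := two_sum i (fun h => ath (tz (zw a w i) * qh (zw a w) h))
    (by positivity : 0 ≤ 6 / 5 * ‖tz (zw a w i)‖) hM
  unfold Sm
  linarith

theorem GG_norm (ha : ∀ i, 10 ≤ a i) (hε : ∀ i, |ε i| ≤ 1) {w : Fin (d + 1) → ℂ}
    (hw : ∀ i, ‖w i‖ ≤ 2 / 5) (i : Fin (d + 1)) : ‖GG a ε w i‖ ≤ 2 / 5 := by
  unfold GG
  rw [norm_mul]
  have h1 := coef_norm hε i
  have h2 := Sm_norm ha hw i
  have h3 := (tz_dom (ha i) (hw i)).2.1
  have h4 := Real.pi_gt_three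
  have h5 : ‖Sm (zw a w) i‖ ≤ 6 / 5 := by
    have : ‖tz (zw a w i)‖ ≤ 1 / 2 := h3
    linarith
  calc ‖-(Complex.I * ε i / Real.pi)‖ * ‖Sm (zw a w) i‖ ≤ 1 / Real.pi * (6 / 5) :=
        mul_le_mul h1 h5 (norm_nonneg _) (by positivity)
    _ ≤ 1 / 3 * (6 / 5) := by
        apply mul_le_mul_of_nonneg_right _ (by norm_num)
        exact one_div_le_one_div_of_le (by norm_num) h4.le
    _ = 2 / 5 := by norm_num

theorem tz_lip' (ha : ∀ i, 10 ≤ a i) {w w' : Fin (d + 1) → ℂ} (hw : ∀ i, ‖w i‖ ≤ 2 / 5)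
    (hw' : ∀ i, ‖w' i‖ ≤ 2 / 5) (i : Fin (d + 1)) :
    ‖tz (zw a w i) - tz (zw a w' i)‖ ≤ 0.39 * ‖w - w'‖ := by
  have h1 := tz_lip (ha i) (hw i) (hw' i)
  obtain ⟨h2, h3⟩ := pi_div_le (ha i)
  have h4 : ‖w i - w' i‖ ≤ ‖w - w'‖ := norm_le_pi_norm (w - w') i
  have h5 : 1.2402 * (Real.pi / a i) ≤ 0.39 := by norm_num at h2 ⊢; linarith
  calc ‖tz (zw a w i) - tz (zw a w' i)‖ ≤ 1.2402 * (Real.pi / a i) * ‖w i - w' i‖ := h1
    _ ≤ 0.39 * ‖w - w'‖ := mul_le_mul h5 h4 (norm_nonneg _) (by norm_num)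

theorem qh_lip (ha : ∀ i, 10 ≤ a i) {w w' : Fin (d + 1) → ℂ} (hw : ∀ i, ‖w i‖ ≤ 2 / 5)
    (hw' : ∀ i, ‖w' i‖ ≤ 2 / 5) (h : Fin d) :
    ‖qh (zw a w) h - qh (zw a w') h‖ ≤ 0.39 * ‖w - w'‖ := by
  have aux : ∀ i, ‖tz (zw a w i) ^ 2 - tz (zw a w' i) ^ 2‖ ≤ 0.39 * ‖w - w'‖ := by
    intro i
    have e : tz (zw a w i) ^ 2 - tz (zw a w' i) ^ 2 =
        (tz (zw a w i) + tz (zw a w' i)) * (tz (zw a w i) - tz (zw a w' i)) := by ring
    rw [e, norm_mul]
    have h1 : ‖tz (zw a w i)‖ ≤ 1 / 2 := (tz_dom (ha i) (hw i)).2.1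
    have h2 : ‖tz (zw a w' i)‖ ≤ 1 / 2 := (tz_dom (ha i) (hw' i)).2.1
    have h3 : ‖tz (zw a w i) + tz (zw a w' i)‖ ≤ 1 := (norm_add_le _ _).trans (by linarith)
    calc _ ≤ 1 * (0.39 * ‖w - w'‖) :=
          mul_le_mul h3 (tz_lip' ha hw hw' i) (norm_nonneg _) (by norm_num)
      _ = _ := one_mul _
  unfold qh
  refine (isq_lip (K_re ha hw _ _) (K_re ha hw' _ _)).trans ?_
  have e : (1 + tz (zw a w h.castSucc) ^ 2 + tz (zw a w h.succ) ^ 2) -
      (1 + tz (zw a w' h.castSucc) ^ 2 + tz (zw a w' h.succ) ^ 2) =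
      (tz (zw a w h.castSucc) ^ 2 - tz (zw a w' h.castSucc) ^ 2) +
      (tz (zw a w h.succ) ^ 2 - tz (zw a w' h.succ) ^ 2) := by ring
  rw [e]
  have := norm_add_le (tz (zw a w h.castSucc) ^ 2 - tz (zw a w' h.castSucc) ^ 2)
    (tz (zw a w h.succ) ^ 2 - tz (zw a w' h.succ) ^ 2)
  have h1 := aux h.castSucc
  have h2 := aux h.succ
  linarith

theorem GG_lip (ha : ∀ i, 10 ≤ a i) (hε : ∀ i, |ε i| ≤ 1) {w w' : Fin (d + 1) → ℂ}
    (hw : ∀ i, ‖w i‖ ≤ 2 / 5) (hw' : ∀ i, ‖w' i‖ ≤ 2 / 5) (i : Fin (d + 1)) :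
    ‖GG a ε w i - GG a ε w' i‖ ≤ 0.6 * ‖w - w'‖ := by
  have hu : ∀ h : Fin d, ‖ath (tz (zw a w i) * qh (zw a w) h) -
      ath (tz (zw a w' i) * qh (zw a w') h)‖ ≤ 0.78 * ‖w - w'‖ := by
    intro h
    have h1 := ath_lip (by norm_num : (1 / 2 : ℝ) < 1) (u_norm ha hw i h) (u_norm ha hw' i h)
    have e : tz (zw a w i) * qh (zw a w) h - tz (zw a w' i) * qh (zw a w') h =
        (tz (zw a w i) - tz (zw a w' i)) * qh (zw a w) h +
        tz (zw a w' i) * (qh (zw a w) h - qh (zw a w') h) := by ring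
    have h2 : ‖(tz (zw a w i) - tz (zw a w' i)) * qh (zw a w) h‖ ≤ 0.39 * ‖w - w'‖ * 1 := by
      rw [norm_mul]
      exact mul_le_mul (tz_lip' ha hw hw' i) (qh_norm ha hw h) (norm_nonneg _) (by positivity)
    have h3 : ‖tz (zw a w' i) * (qh (zw a w) h - qh (zw a w') h)‖ ≤
        1 / 2 * (0.39 * ‖w - w'‖) := by
      rw [norm_mul]
      exact mul_le_mul (tz_dom (ha i) (hw' i)).2.1 (qh_lip ha hw hw' h) (norm_nonneg _)
        (by norm_num)
    have h4 := norm_add_le ((tz (zw a w i) - tz (zw a w' i)) * qh (zw a w) h)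
      (tz (zw a w' i) * (qh (zw a w) h - qh (zw a w') h))
    rw [e] at h1
    have h5 : (1 : ℝ) / (1 - (1 / 2) ^ 2) = 4 / 3 := by norm_num
    rw [h5] at h1
    have h7 := norm_nonneg (w - w')
    linarith
  have e : Sm (zw a w) i - Sm (zw a w') i = ∑ h : Fin d,
      ((if h.castSucc = i then (ath (tz (zw a w i) * qh (zw a w) h) -
        ath (tz (zw a w' i) * qh (zw a w') h)) else 0) +
       (if h.succ = i then (ath (tz (zw a w i) * qh (zw a w) h) -
        ath (tz (zw a w' i) * qh (zw a w') h)) else 0)) := by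
    unfold Sm
    rw [← Finset.sum_sub_distrib]
    apply Finset.sum_congr rfl
    intro h _
    split_ifs <;> ring
  have h1 := two_sum i _ (by positivity : 0 ≤ 0.78 * ‖w - w'‖) hu
  rw [← e] at h1
  have h2 : GG a ε w i - GG a ε w' i =
      -(Complex.I * ε i / Real.pi) * (Sm (zw a w) i - Sm (zw a w') i) := by
    unfold GG; ring
  rw [h2, norm_mul]
  have h3 := coef_norm hε i
  have h4 := Real.pi_gt_three
  have h5 : 1 / Real.pi ≤ 1 / 3 := one_div_le_one_div_of_le (by norm_num) h4.le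
  have h6 : ‖-(Complex.I * ε i / Real.pi)‖ ≤ 1 / 3 := h3.trans h5
  have h7 := norm_nonneg (w - w')
  calc ‖-(Complex.I * ε i / Real.pi)‖ * ‖Sm (zw a w) i - Sm (zw a w') i‖
      ≤ 1 / 3 * (2 * (0.78 * ‖w - w'‖)) := mul_le_mul h6 h1 (norm_nonneg _) (by norm_num)
    _ ≤ 0.6 * ‖w - w'‖ := by norm_num; linarith

/-- existence of the saddle point -/
theorem exists_sad (ha : ∀ i, 10 ≤ a i) (hε : ∀ i, |ε i| ≤ 1) :
    ∃ ζ : Fin (d + 1) → ℂ, (∀ i, ‖(a i : ℂ) * ζ i - 1‖ ≤ 2 / 5) ∧ SadEq a ε ζ := by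
  set s : Set (Fin (d + 1) → ℂ) := Metric.closedBall 0 (2 / 5) with hs
  have hmem : ∀ w : Fin (d + 1) → ℂ, w ∈ s ↔ ∀ i, ‖w i‖ ≤ 2 / 5 := by
    intro w
    rw [hs, mem_closedBall_zero_iff, pi_norm_le_iff_of_nonneg (by norm_num)]
  have hmaps : Set.MapsTo (GG a ε) s s := by
    intro w hw
    rw [hmem] at hw ⊢
    exact GG_norm ha hε hw
  have hcontr : ContractingWith (0.6 : NNReal) (hmaps.restrict (GG a ε) s s) := by
    refine ⟨by norm_num, ?_⟩
    apply LipschitzWith.of_dist_le_mul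
    intro x y
    have hx := (hmem _).1 x.2
    have hy := (hmem _).1 y.2
    rw [Subtype.dist_eq, Subtype.dist_eq, dist_eq_norm, dist_eq_norm]
    have h06 : ((0.6 : NNReal) : ℝ) = 0.6 := by norm_num
    rw [h06]
    rw [pi_norm_le_iff_of_nonneg (by positivity)]
    intro i
    exact GG_lip ha hε hx hy i
  have h0 : (0 : Fin (d + 1) → ℂ) ∈ s := Metric.mem_closedBall_self (by norm_num)
  obtain ⟨w, hw, hfix, -⟩ := hcontr.exists_fixedPoint' Metric.isClosed_closedBall.isComplete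
    hmaps h0 (edist_ne_top _ _)
  have hw' := (hmem w).1 hw
  have hane : ∀ i, (a i : ℂ) ≠ 0 := by
    intro i
    have := ha i
    exact_mod_cast (by omega : a i ≠ 0)
  refine ⟨zw a w, ?_, ?_⟩
  · intro i
    have : (a i : ℂ) * zw a w i - 1 = w i := by
      unfold zw
      rw [mul_div_cancel₀ _ (hane i)]
      ring
    rw [this]
    exact hw' i
  · intro i
    have : (a i : ℂ) * zw a w i - 1 = w i := by
      unfold zw
      rw [mul_div_cancel₀ _ (hane i)]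
      ring
    rw [this]
    have h2 : GG a ε w i = w i := congrFun hfix i
    rw [← h2]
    rfl

/-- uniqueness of the saddle point -/
theorem sad_unique (ha : ∀ i, 10 ≤ a i) (hε : ∀ i, |ε i| ≤ 1) {ζ ζ' : Fin (d + 1) → ℂ}
    (h1 : ∀ i, ‖(a i : ℂ) * ζ i - 1‖ ≤ 2 / 5) (h2 : SadEq a ε ζ)
    (h1' : ∀ i, ‖(a i : ℂ) * ζ' i - 1‖ ≤ 2 / 5) (h2' : SadEq a ε ζ') : ζ = ζ' := by
  have hane : ∀ i, (a i : ℂ) ≠ 0 := by
    intro i
    have := ha i
    exact_mod_cast (by omega : a i ≠ 0)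
  have e1 : ∀ ξ : Fin (d + 1) → ℂ, zw a (fun i => (a i : ℂ) * ξ i - 1) = ξ := by
    intro ξ
    funext i
    unfold zw
    have := hane i
    field_simp
    ring
  have key : ‖(fun i => (a i : ℂ) * ζ i - 1) - (fun i => (a i : ℂ) * ζ' i - 1)‖ ≤
      0.6 * ‖(fun i => (a i : ℂ) * ζ i - 1) - (fun i => (a i : ℂ) * ζ' i - 1)‖ := by
    rw [pi_norm_le_iff_of_nonneg (by positivity)]
    intro i
    have h3 := GG_lip ha hε h1 h1' i
    have f1 : GG a ε (fun i => (a i : ℂ) * ζ i - 1) i = (a i : ℂ) * ζ i - 1 := by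
      unfold GG
      rw [e1]
      exact (h2 i).symm
    have f2 : GG a ε (fun i => (a i : ℂ) * ζ' i - 1) i = (a i : ℂ) * ζ' i - 1 := by
      unfold GG
      rw [e1]
      exact (h2' i).symm
    rw [f1, f2] at h3
    exact h3
  have h0 : ‖(fun i => (a i : ℂ) * ζ i - 1) - (fun i => (a i : ℂ) * ζ' i - 1)‖ = 0 := by
    have := norm_nonneg ((fun i => (a i : ℂ) * ζ i - 1) - (fun i => (a i : ℂ) * ζ' i - 1))
    have h6 : (0.6 : ℝ) = 3 / 5 := by norm_num
    rw [h6] at key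
    linarith
  rw [norm_sub_eq_zero_iff] at h0
  rw [← e1 ζ, ← e1 ζ', h0]

end

end Pool.Agent.Work.MP_b30479_gt.GT
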